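import Pool.Agent.helper62.VN.SpecE

set_option autoImplicit false

namespace Pool.Agent.VNE

open Pool.Agent.RS Pool.Agent.VQE
open scoped MatrixGroups ContDiff Topology UpperHalfPlane
open UpperHalfPlane MeasureTheory Filter Set

/-- the conclusion of NDC -/
def NES_N (K1 C0 μ : ℝ) : Prop := ∀ (η P k β χ : ℝ → ℝ) (a b : ℝ), a ≤ b → LSy K1 η P k β χ a b →
  (∀ s ∈ Icc a b, ∀ t ∈ Icc a b, s ≤ t → min 1 (t - s) * ((|β s| + |χ s|) ^ 2 + (|β t| + |χ t|) ^ 2) / C0 ≤ β t * χ t - β s * χ s) ∧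
  (∀ s ∈ Icc a b, ∀ t ∈ Icc a b, |β t| + |χ t| ≤ C0 * Real.exp (C0 * |t - s|) * (|β s| + |χ s|)) ∧
  (β b * χ b ≤ 0 → ∀ t ∈ Icc a b, |β t| + |χ t| ≤ C0 * Real.exp (-(μ * (t - a))) * (|β a| + |χ a|)) ∧
  (0 ≤ β a * χ a → ∀ t ∈ Icc a b, |β t| + |χ t| ≤ C0 * Real.exp (-(μ * (b - t))) * (|β b| + |χ b|))

theorem NES_sign {K : ℝ} {η P k β χ : ℝ → ℝ} {a b : ℝ} (h : LSy K η P k β χ a b) (σ : ℝ) (hσ : |σ| = 1) :
    LSy K η P k (fun t => σ * β t) (fun t => σ * χ t) a b := by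
  refine ⟨h.bd, fun t ht => ?_⟩
  obtain ⟨β', χ', d1, d2, e1, e2⟩ := h.d t ht
  refine ⟨σ * β', σ * χ', d1.const_mul σ, d2.const_mul σ, ?_, ?_⟩
  · have e3 : σ * β' - P t * (σ * χ t) = σ * (β' - P t * χ t) := by ring
    rw [e3, abs_mul, abs_mul, abs_mul, hσ, one_mul, one_mul, one_mul]
    exact e1
  · have e3 : σ * χ' - k t * (σ * β t) = σ * (χ' - k t * β t) := by ring
    rw [e3, abs_mul, abs_mul, abs_mul, hσ, one_mul, one_mul, one_mul]
    exact e2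

theorem NES_mv (f : ℝ → ℝ) (t B : ℝ) (ht : 0 ≤ t)
    (h : ∀ r ∈ Icc (0 : ℝ) t, ∃ f' : ℝ, HasDerivAt f f' r ∧ f' ≤ B) : f t - f 0 ≤ B * t := by
  have h1 := Convex.image_sub_le_mul_sub_of_deriv_le (convex_Icc (0 : ℝ) t) (f := f) (C := B)
    (fun r hr => by obtain ⟨f', d, _⟩ := h r hr; exact d.continuousAt.continuousWithinAt)
    (fun r hr => by
      obtain ⟨f', d, _⟩ := h r (interior_subset hr)
      exact d.differentiableAt.differentiableWithinAt)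
    (fun r hr => by
      obtain ⟨f', d, e⟩ := h r (interior_subset hr)
      rw [d.deriv]; exact e)
    0 ⟨le_rfl, ht⟩ t ⟨ht, le_rfl⟩ ht
  rwa [sub_zero] at h1

theorem NES_mon {K1 C0 μ : ℝ} (hC0 : 1 ≤ C0) (hN : NES_N K1 C0 μ) {η P k β χ : ℝ → ℝ}
    (hL : ∀ T, LSy K1 η P k β χ 0 T) {s t : ℝ} (hs : 0 ≤ s) (hst : s ≤ t) : β s * χ s ≤ β t * χ t := by
  have h5 := (hN η P k β χ 0 t (hs.trans hst) (hL t)).1 s ⟨hs, hst⟩ t ⟨hs.trans hst, le_rfl⟩ hst
  have h6 : 0 ≤ min 1 (t - s) * ((|β s| + |χ s|) ^ 2 + (|β t| + |χ t|) ^ 2) / C0 := by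
    apply div_nonneg _ (by linarith)
    apply mul_nonneg _ (by positivity)
    exact le_min zero_le_one (sub_nonneg.2 hst)
  linarith

/-- the solution from `(a, 0)` has a positive first coordinate -/
theorem NES_pos {K1 C0 μ : ℝ} (hC0 : 1 ≤ C0) (hN : NES_N K1 C0 μ) {η P k β χ : ℝ → ℝ}
    (hL : ∀ T, LSy K1 η P k β χ 0 T) (hβ : 0 < β 0) (hχ : χ 0 = 0) (t : ℝ) (ht : 0 ≤ t) : 0 < β t := by
  by_contra hcon
  push Not at hcon
  have hcont : ContinuousOn β (Icc 0 t) := by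
    intro r hr
    obtain ⟨x, y, d1, d2, _⟩ := (hL t).d r hr
    exact d1.continuousAt.continuousWithinAt
  obtain ⟨r, hr, hr0⟩ := intermediate_value_Icc' ht hcont ⟨hcon, hβ.le⟩
  have hr1 : 0 < r := by
    rcases eq_or_lt_of_le hr.1 with h | h
    · rw [← h] at hr0; exact absurd hr0 hβ.ne'
    · exact h
  have h5 := (hN η P k β χ 0 r hr.1 (hL r)).1 0 ⟨le_rfl, hr.1⟩ r ⟨hr.1, le_rfl⟩ hr.1
  rw [hr0, hχ, zero_mul, mul_zero, sub_zero, sub_zero] at h5
  have h6 : 0 < min 1 r * ((|β 0| + |0|) ^ 2 + (|0| + |χ r|) ^ 2) / C0 := by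
    apply div_pos _ (by linarith)
    apply mul_pos (lt_min one_pos hr1)
    have : 0 < |β 0| := abs_pos.2 hβ.ne'
    positivity
  linarith

theorem NES_short {K1 : ℝ} (hK1 : 1 ≤ K1) {M a Λ τ : ℝ} (hM : 1 ≤ M) (ha : 0 < a) (hΛ : Λ = 64 * K1 ^ 2 * M)
    (hτ : τ = 1 / (8 * K1 * M)) {P k β χ : ℝ → ℝ}
    (hL : LSy K1 (fun _ => 1 / (100 * K1 ^ 2)) P k β χ 0 1)
    (hb : ∀ t ∈ Icc (0 : ℝ) 1, |β t| + |χ t| ≤ M * (|β 0| + |χ 0|))
    (hβ : β 0 = a) (hχ : χ 0 = -(Λ * a)) : β τ < 0 ∧ χ τ < 0 := by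
  have hK0 : 0 < K1 := by linarith
  have hM0 : 0 < M := by linarith
  have hτ0 : 0 < τ := by rw [hτ]; positivity
  have hτ1 : τ ≤ 1 := by
    rw [hτ, div_le_one (by positivity)]
    nlinarith [mul_le_mul hK1 hM zero_le_one hK0.le]
  have hΛ1 : 1 ≤ Λ := by
    rw [hΛ]
    have : 1 ≤ K1 ^ 2 := one_le_pow₀ hK1
    nlinarith [mul_le_mul this hM zero_le_one (by positivity)]
  set R : ℝ := a + Λ * a with hR
  have hR0 : 0 < R := by positivity
  have hv0 : |β 0| + |χ 0| = R := by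
    rw [hβ, hχ, abs_neg, abs_of_pos ha, abs_of_nonneg (by positivity)]
  rw [hv0] at hb
  have hη : (1 : ℝ) / (100 * K1 ^ 2) ≤ 1 / 100 := by
    apply one_div_le_one_div_of_le (by norm_num)
    nlinarith [one_le_pow₀ hK1 (n := 2)]
  have hη0 : (0 : ℝ) ≤ 1 / (100 * K1 ^ 2) := by positivity
  -- the derivatives
  have hder : ∀ r ∈ Icc (0 : ℝ) 1, ∃ β' χ' : ℝ, HasDerivAt β β' r ∧ HasDerivAt χ χ' r ∧ |β'| ≤ 2 * K1 * (M * R) ∧
      |χ'| ≤ 2 * K1 * (M * R) := by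
    intro r hr
    obtain ⟨β', χ', d1, d2, e1, e2⟩ := hL.d r hr
    obtain ⟨p1, p2, k1, k2, _, _⟩ := hL.bd r hr
    have hP0 : 0 ≤ P r := le_trans (by positivity) p1
    have hk0 : 0 ≤ k r := le_trans (by positivity) k1
    have hbr := hb r hr
    have hβr := abs_nonneg (β r)
    have hχr := abs_nonneg (χ r)
    have a1 : |P r * χ r| ≤ K1 * (|β r| + |χ r|) := by
      rw [abs_mul, abs_of_nonneg hP0]
      have := mul_le_mul_of_nonneg_right p2 hχr
      nlinarith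
    have a2 : |k r * β r| ≤ K1 * (|β r| + |χ r|) := by
      rw [abs_mul, abs_of_nonneg hk0]
      have := mul_le_mul_of_nonneg_right k2 hβr
      nlinarith
    have a3 : 1 / (100 * K1 ^ 2) * (|β r| + |χ r|) ≤ K1 * (|β r| + |χ r|) := by
      apply mul_le_mul_of_nonneg_right _ (by positivity)
      linarith
    have a4 : K1 * (|β r| + |χ r|) ≤ K1 * (M * R) := mul_le_mul_of_nonneg_left hbr hK0.le
    refine ⟨β', χ', d1, d2, ?_, ?_⟩
    · have : |β'| ≤ |β' - P r * χ r| + |P r * χ r| := by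
        have := abs_add_le (β' - P r * χ r) (P r * χ r)
        rwa [sub_add_cancel] at this
      linarith
    · have : |χ'| ≤ |χ' - k r * β r| + |k r * β r| := by
        have := abs_add_le (χ' - k r * β r) (k r * β r)
        rwa [sub_add_cancel] at this
      linarith
  have hsmall : ∀ t ∈ Icc (0 : ℝ) τ, |β t - β 0| ≤ R / 4 ∧ |χ t - χ 0| ≤ R / 4 := by
    intro t ht
    have hB : 2 * K1 * (M * R) * t ≤ R / 4 := by
      have : 2 * K1 * (M * R) * t ≤ 2 * K1 * (M * R) * τ := mul_le_mul_of_nonneg_left ht.2 (by positivity)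
      have e : 2 * K1 * (M * R) * τ = R / 4 := by
        rw [hτ]; field_simp; norm_num
      linarith
    have ht1 : ∀ r ∈ Icc (0 : ℝ) t, r ∈ Icc (0 : ℝ) 1 := fun r hr => ⟨hr.1, hr.2.trans (ht.2.trans hτ1)⟩
    have b1 := NES_mv β t (2 * K1 * (M * R)) ht.1 (fun r hr => by
      obtain ⟨x, y, d1, _, e1, _⟩ := hder r (ht1 r hr)
      exact ⟨x, d1, (le_abs_self _).trans e1⟩)
    have b2 := NES_mv (fun r => -β r) t (2 * K1 * (M * R)) ht.1 (fun r hr => by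
      obtain ⟨x, y, d1, _, e1, _⟩ := hder r (ht1 r hr)
      exact ⟨-x, d1.neg, (neg_le_abs _).trans e1⟩)
    have b3 := NES_mv χ t (2 * K1 * (M * R)) ht.1 (fun r hr => by
      obtain ⟨x, y, _, d1, _, e1⟩ := hder r (ht1 r hr)
      exact ⟨y, d1, (le_abs_self _).trans e1⟩)
    have b4 := NES_mv (fun r => -χ r) t (2 * K1 * (M * R)) ht.1 (fun r hr => by
      obtain ⟨x, y, _, d1, _, e1⟩ := hder r (ht1 r hr)
      exact ⟨-y, d1.neg, (neg_le_abs _).trans e1⟩)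
    have b2' : -β t - -β 0 ≤ 2 * K1 * (M * R) * t := b2
    have b4' : -χ t - -χ 0 ≤ 2 * K1 * (M * R) * t := b4
    exact ⟨abs_le.2 ⟨by linarith, by linarith⟩, abs_le.2 ⟨by linarith, by linarith⟩⟩
  have hχt : ∀ t ∈ Icc (0 : ℝ) τ, χ t ≤ -(Λ * a / 2) := by
    intro t ht
    have h1 := (abs_le.1 (hsmall t ht).2).2
    rw [hχ] at h1
    have h2 : R / 4 ≤ Λ * a / 2 := by
      rw [hR]
      nlinarith
    linarith
  have hvt : ∀ t ∈ Icc (0 : ℝ) τ, |β t| + |χ t| ≤ 2 * R := by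
    intro t ht
    obtain ⟨h1, h2⟩ := hsmall t ht
    have h3 : |β t| ≤ |β t - β 0| + |β 0| := by
      have := abs_add_le (β t - β 0) (β 0)
      rwa [sub_add_cancel] at this
    have h4 : |χ t| ≤ |χ t - χ 0| + |χ 0| := by
      have := abs_add_le (χ t - χ 0) (χ 0)
      rwa [sub_add_cancel] at this
    linarith
  refine ⟨?_, ?_⟩
  · have b1 := NES_mv β τ (-(Λ * a / (4 * K1))) hτ0.le (fun r hr => by
      obtain ⟨β', χ', d1, d2, e1, e2⟩ := hL.d r ⟨hr.1, hr.2.trans hτ1⟩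
      obtain ⟨p1, p2, k1, k2, _, _⟩ := hL.bd r ⟨hr.1, hr.2.trans hτ1⟩
      refine ⟨β', d1, ?_⟩
      have h1 := hχt r hr
      have h2 := hvt r hr
      have h3 : P r * χ r ≤ 1 / K1 * χ r := by
        have hneg : χ r ≤ 0 := h1.trans (by have : 0 ≤ Λ * a / 2 := by positivity
                                            linarith)
        exact mul_le_mul_of_nonpos_right p1 hneg
      have h4 : 1 / K1 * χ r ≤ 1 / K1 * (-(Λ * a / 2)) := mul_le_mul_of_nonneg_left h1 (by positivity)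
      have h5 : 1 / (100 * K1 ^ 2) * (|β r| + |χ r|) ≤ 1 / (100 * K1 ^ 2) * (2 * R) := mul_le_mul_of_nonneg_left h2 hη0
      have h6 : 1 / (100 * K1 ^ 2) * (2 * R) ≤ Λ * a / (25 * K1) := by
        have e1 : R ≤ 2 * (Λ * a) := by rw [hR]; nlinarith
        have e2 : 1 / (100 * K1 ^ 2) * (2 * R) ≤ 1 / (100 * K1 ^ 2) * (2 * (2 * (Λ * a))) := by
          apply mul_le_mul_of_nonneg_left _ hη0
          linarith
        have e3 : 1 / (100 * K1 ^ 2) * (2 * (2 * (Λ * a))) = (Λ * a / (25 * K1)) * (1 / K1) := by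
          field_simp; norm_num
        have e4 : (Λ * a / (25 * K1)) * (1 / K1) ≤ (Λ * a / (25 * K1)) * 1 := by
          apply mul_le_mul_of_nonneg_left _ (by positivity)
          rw [div_le_one hK0]; exact hK1
        linarith
      have h7 := (abs_le.1 e1).2
      have h8 : 1 / K1 * (-(Λ * a / 2)) + Λ * a / (25 * K1) ≤ -(Λ * a / (4 * K1)) := by
        have e : -(Λ * a / (4 * K1)) - (1 / K1 * (-(Λ * a / 2)) + Λ * a / (25 * K1)) = (21 / 100) * (Λ * a / K1) := by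
          field_simp; norm_num
        have : 0 ≤ (21 / 100) * (Λ * a / K1) := by positivity
        linarith
      linarith)
    rw [hβ] at b1
    have e : -(Λ * a / (4 * K1)) * τ = -(2 * a) := by
      rw [hΛ, hτ]; field_simp; norm_num
    rw [e] at b1
    linarith
  · have := hχt τ ⟨hτ0.le, le_rfl⟩
    have : 0 < Λ * a / 2 := by positivity
    linarith

theorem NES_abs {K1 C0 μ : ℝ} (hK1 : 1 ≤ K1) (hC0 : 1 ≤ C0) (hN : NES_N K1 C0 μ) {P k : ℝ → ℝ}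
    (β χ : ℝ → ℝ → ℝ) (a : ℝ) (ha : 0 < a)
    (hcβ : ∀ t, Continuous fun z => β z t) (hcχ : ∀ t, Continuous fun z => χ z t)
    (hL : ∀ z T, LSy K1 (fun _ => 1 / (100 * K1 ^ 2)) P k (β z) (χ z) 0 T)
    (hβ : ∀ z, β z 0 = a) (hχ : ∀ z, χ z 0 = z) :
    ∃ z ∈ Icc (-(64 * K1 ^ 2 * (C0 * Real.exp C0) * a)) 0, ∀ t, 0 ≤ t → β z t * χ z t ≤ 0 := by
  set M : ℝ := C0 * Real.exp C0 with hM
  have hM1 : 1 ≤ M := by
    have : 1 ≤ Real.exp C0 := Real.one_le_exp (by linarith)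
    nlinarith
  set Λ : ℝ := 64 * K1 ^ 2 * M with hΛ
  have hK0 : 0 < K1 := by linarith
  have hΛ0 : 0 < Λ := by positivity
  set τ : ℝ := 1 / (8 * K1 * M) with hτ
  have hτ0 : 0 < τ := by positivity
  have hτ1 : τ ≤ 1 := by
    rw [hτ, div_le_one (by positivity)]
    nlinarith [mul_le_mul hK1 hM1 zero_le_one hK0.le]
  have hneg : ∀ t, τ ≤ t → β (-(Λ * a)) t < 0 := by
    set z := -(Λ * a) with hz
    obtain ⟨s1, s2⟩ := NES_short hK1 hM1 ha hΛ hτ (hL z 1) (by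
      intro t ht
      have h5 := (hN _ P k (β z) (χ z) 0 1 zero_le_one (hL z 1)).2.1 0 ⟨le_rfl, zero_le_one⟩ t ht
      refine h5.trans ?_
      apply mul_le_mul_of_nonneg_right _ (add_nonneg (abs_nonneg _) (abs_nonneg _))
      rw [hM]
      apply mul_le_mul_of_nonneg_left _ (by linarith)
      apply Real.exp_le_exp.2
      rw [sub_zero, abs_of_nonneg ht.1]
      nlinarith [ht.2]) (hβ z) (hχ z)
    intro t ht
    by_contra hcon
    push Not at hcon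
    have hcont : ContinuousOn (β z) (Icc τ t) := by
      intro r hr
      obtain ⟨x, y, d1, d2, _⟩ := (hL z t).d r ⟨hτ0.le.trans hr.1, hr.2⟩
      exact d1.continuousAt.continuousWithinAt
    obtain ⟨r, hr, hr0⟩ := intermediate_value_Icc ht hcont ⟨s1.le, hcon⟩
    have h6 := NES_mon hC0 hN (hL z) hτ0.le hr.1
    rw [hr0, zero_mul] at h6
    have h7 := mul_pos_of_neg_of_neg s1 s2
    linarith
  have hpos : ∀ t, 0 ≤ t → 0 < β 0 t := fun t ht =>
    NES_pos hC0 hN (hL 0) (by rw [hβ]; exact ha) (hχ 0) t ht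
  set S : ℕ → Set ℝ := fun n => Icc (-(Λ * a)) 0 ∩ {z | β z (n + 1 : ℝ) * χ z (n + 1 : ℝ) ≤ 0} with hS
  have hScl : ∀ n, IsClosed (S n) := fun n =>
    isClosed_Icc.inter (isClosed_le ((hcβ _).mul (hcχ _)) continuous_const)
  have hne : (⋂ n, S n).Nonempty := by
    apply IsCompact.nonempty_iInter_of_sequence_nonempty_isCompact_isClosed
    · intro n z hz
      refine ⟨hz.1, ?_⟩
      have h1 : β z ((n + 1 : ℕ) + 1 : ℝ) * χ z ((n + 1 : ℕ) + 1 : ℝ) ≤ 0 := hz.2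
      have h2 := NES_mon hC0 hN (hL z) (s := (n + 1 : ℝ)) (t := ((n + 1 : ℕ) + 1 : ℝ)) (by positivity) (by push_cast; linarith)
      exact h2.trans h1
    · intro n
      have hle : -(Λ * a) ≤ 0 := by have : 0 ≤ Λ * a := by positivity
                                    linarith
      have hn1 : τ ≤ (n + 1 : ℝ) := hτ1.trans (by have : (0 : ℝ) ≤ n := Nat.cast_nonneg n
                                                  linarith)
      obtain ⟨z, hz, hz0⟩ := intermediate_value_Icc hle (hcβ (n + 1 : ℝ)).continuousOn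
        ⟨(hneg _ hn1).le, (hpos _ (by positivity)).le⟩
      have hz0' : β z (n + 1 : ℝ) = 0 := hz0
      refine ⟨z, hz, ?_⟩
      change β z (n + 1 : ℝ) * χ z (n + 1 : ℝ) ≤ 0
      rw [hz0', zero_mul]
    · exact isCompact_Icc.inter_right (isClosed_le ((hcβ _).mul (hcχ _)) continuous_const)
    · exact hScl
  obtain ⟨z, hz⟩ := hne
  rw [mem_iInter] at hz
  refine ⟨z, (hz 0).1, fun t ht => ?_⟩
  obtain ⟨n, hn⟩ := exists_nat_ge t
  have h1 : β z (n + 1 : ℝ) * χ z (n + 1 : ℝ) ≤ 0 := (hz n).2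
  exact (NES_mon hC0 hN (hL z) ht (by linarith)).trans h1

theorem NES_proof (h0 : NCH_stmt) (h1 : NGC_stmt) (h2 : NDC_stmt) : NES_stmt := by
  intro K hK
  obtain ⟨ε0, hε0, hG⟩ := h1 K hK
  have hK1 : 1 ≤ K ^ 2 := one_le_pow₀ hK
  obtain ⟨C0, μ, hC0, hμ, hN'⟩ := h2 (K ^ 2) hK1
  have hN : NES_N (K ^ 2) C0 μ := hN'
  set Λ : ℝ := 64 * (K ^ 2) ^ 2 * (C0 * Real.exp C0) with hΛ
  have hC00 : 0 < C0 := by linarith
  have hΛ0 : 0 ≤ Λ := by positivity
  refine ⟨2 * C0 * (1 + Λ), ε0, by nlinarith, hε0, ?_⟩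
  intro ε X g j hε hεε0 hX hj
  obtain ⟨Φ, Φ0, Φx, Φt, ΦL, Φd⟩ := hG ε X g hε hεε0 hX
  have hη : (fun _ : ℝ => (1 : ℝ) / (100 * K ^ 4)) = fun _ => 1 / (100 * (K ^ 2) ^ 2) := by
    funext _
    ring
  rw [hη] at ΦL
  have hcCC : 0 < 2 * C0 * (1 + Λ) := by positivity
  have hj' : C0 * (1 + Λ) * |j| ≤ ε / 2 := by
    rw [le_div_iff₀ hcCC] at hj
    linarith
  -- the point w
  obtain ⟨w, hw, hq⟩ : ∃ w : ℝ, |w| ≤ Λ * |j| ∧ ∀ t, 0 ≤ t → (Φ t (j, w)).1 * (Φ t (j, w)).2 ≤ 0 := by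
    by_cases hj0 : j = 0
    · refine ⟨0, by rw [abs_zero]; positivity, fun t ht => ?_⟩
      have h5 := (hN _ _ _ _ _ 0 t ht (ΦL (j, 0) t)).2.1 0 ⟨le_rfl, ht⟩ t ⟨ht, le_rfl⟩
      rw [Φ0, hj0] at h5
      simp only [abs_zero, add_zero, mul_zero] at h5
      have h6 : |(Φ t (0, 0)).1| = 0 := le_antisymm (by have := abs_nonneg (Φ t (0, 0)).2; linarith) (abs_nonneg _)
      rw [hj0, abs_eq_zero.1 h6, zero_mul]
    · -- sign
      obtain ⟨σ, hσ, hσj⟩ : ∃ σ : ℝ, |σ| = 1 ∧ 0 < σ * j := by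
        rcases lt_or_gt_of_ne hj0 with h | h
        · exact ⟨-1, by norm_num, by linarith⟩
        · exact ⟨1, by norm_num, by linarith⟩
      have hσσ : σ * σ = 1 := by rw [← abs_mul_abs_self, hσ, one_mul]
      have hjσ : σ * j = |j| := by
        rw [← abs_of_pos hσj, abs_mul, hσ, one_mul]
      have hΦcont : ∀ t, Continuous fun z : ℝ => Φ t (j, σ * z) := fun t =>
        (Φx t).comp (by fun_prop)
      obtain ⟨z, hz, hq⟩ := NES_abs hK1 hC0 hN (fun z t => σ * (Φ t (j, σ * z)).1) (fun z t => σ * (Φ t (j, σ * z)).2)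
        (σ * j) hσj (fun t => continuous_const.mul (continuous_fst.comp (hΦcont t)))
        (fun t => continuous_const.mul (continuous_snd.comp (hΦcont t)))
        (fun z T => NES_sign (ΦL (j, σ * z) T) σ hσ)
        (fun z => by rw [Φ0]) (fun z => by rw [Φ0]; change σ * (σ * z) = z; rw [← mul_assoc, hσσ, one_mul])
      refine ⟨σ * z, ?_, fun t ht => ?_⟩
      · rw [abs_mul, hσ, one_mul, abs_of_nonpos hz.2]
        have h5 := hz.1
        rw [hjσ] at h5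
        rw [hΛ]
        linarith
      · have h5 := hq t ht
        have h6 : σ * (Φ t (j, σ * z)).1 * (σ * (Φ t (j, σ * z)).2) = (σ * σ) * ((Φ t (j, σ * z)).1 * (Φ t (j, σ * z)).2) := by ring
        simp only [h6] at h5
        rwa [hσσ, one_mul] at h5
  have hbd : ∀ t, 0 ≤ t → |(Φ t (j, w)).1| + |(Φ t (j, w)).2| ≤ ε / 2 := by
    intro t ht
    have h5 := (hN _ _ _ _ _ 0 t ht (ΦL (j, w) t)).2.2.1 (hq t ht) t ⟨ht, le_rfl⟩
    rw [Φ0] at h5
    refine h5.trans ?_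
    have e1 : Real.exp (-(μ * (t - 0))) ≤ 1 := Real.exp_le_one_iff.2 (by nlinarith)
    have e2 : C0 * Real.exp (-(μ * (t - 0))) ≤ C0 * 1 := mul_le_mul_of_nonneg_left e1 hC00.le
    rw [mul_one] at e2
    have e3 : |j| + |w| ≤ (1 + Λ) * |j| := by linarith
    have e4 : C0 * Real.exp (-(μ * (t - 0))) * (|j| + |w|) ≤ C0 * ((1 + Λ) * |j|) :=
      mul_le_mul e2 e3 (add_nonneg (abs_nonneg _) (abs_nonneg _)) hC00.le
    refine e4.trans (le_trans (le_of_eq ?_) hj')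
    ring
  refine ⟨fun t => (Φ t (j, w)).1, fun t => (Φ t (j, w)).2, ⟨fun T => ⟨?_, ?_, ?_⟩, hq⟩, ?_⟩
  · intro t ht
    have h5 := hbd t ht.1
    have a1 := abs_nonneg (Φ t (j, w)).1
    have a2 := abs_nonneg (Φ t (j, w)).2
    exact (Φd (j, w) t (by linarith) (by linarith)).1
  · intro t ht
    have h5 := hbd t ht.1
    have a1 := abs_nonneg (Φ t (j, w)).1
    have a2 := abs_nonneg (Φ t (j, w)).2
    exact (Φd (j, w) t (by linarith) (by linarith)).2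
  · intro t ht
    have h5 := hbd t ht.1
    change |(Φ t (j, w)).1| + |(Φ t (j, w)).2| ≤ ε
    linarith
  · change (Φ 0 (j, w)).1 = j
    rw [Φ0]

end Pool.Agent.VNE
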