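import Pool.Agent.helper62.VN.SpecE

set_option autoImplicit false

namespace Pool.Agent.VNE

open Pool.Agent.RS Pool.Agent.VQE
open scoped MatrixGroups ContDiff Topology UpperHalfPlane
open UpperHalfPlane MeasureTheory Filter Set

/-- the conclusion of NDC -/
def NST_N (K1 C0 μ : ℝ) : Prop := ∀ (η P k β χ : ℝ → ℝ) (a b : ℝ), a ≤ b → LSy K1 η P k β χ a b →
  (∀ s ∈ Icc a b, ∀ t ∈ Icc a b, s ≤ t → min 1 (t - s) * ((|β s| + |χ s|) ^ 2 + (|β t| + |χ t|) ^ 2) / C0 ≤ β t * χ t - β s * χ s) ∧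
  (∀ s ∈ Icc a b, ∀ t ∈ Icc a b, |β t| + |χ t| ≤ C0 * Real.exp (C0 * |t - s|) * (|β s| + |χ s|)) ∧
  (β b * χ b ≤ 0 → ∀ t ∈ Icc a b, |β t| + |χ t| ≤ C0 * Real.exp (-(μ * (t - a))) * (|β a| + |χ a|)) ∧
  (0 ≤ β a * χ a → ∀ t ∈ Icc a b, |β t| + |χ t| ≤ C0 * Real.exp (-(μ * (b - t))) * (|β b| + |χ b|))

theorem NST_mono {K : ℝ} {η η' P k β χ : ℝ → ℝ} {a b : ℝ} (h : LSy K η P k β χ a b)
    (h1 : ∀ t ∈ Icc a b, η t ≤ η' t) (h2 : ∀ t ∈ Icc a b, η' t ≤ 1 / (8 * K)) : LSy K η' P k β χ a b := by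
  refine ⟨fun t ht => ?_, fun t ht => ?_⟩
  · obtain ⟨x1, x2, x3, x4, x5, x6⟩ := h.bd t ht
    exact ⟨x1, x2, x3, x4, x5.trans (h1 t ht), h2 t ht⟩
  · obtain ⟨β', χ', d1, d2, e1, e2⟩ := h.d t ht
    have h3 : η t * (|β t| + |χ t|) ≤ η' t * (|β t| + |χ t|) :=
      mul_le_mul_of_nonneg_right (h1 t ht) (add_nonneg (abs_nonneg _) (abs_nonneg _))
    exact ⟨β', χ', d1, d2, e1.trans h3, e2.trans h3⟩

theorem NST_cone (C β χ : ℝ) (h : (|β| + |χ|) ^ 2 ≤ -(C * (β * χ))) (hC : 0 ≤ C) :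
    |χ| ≤ C * |β| ∧ |β| ≤ C * |χ| := by
  have hβ := abs_nonneg β
  have hχ := abs_nonneg χ
  have h1 : -(C * (β * χ)) ≤ C * (|β| * |χ|) := by
    rw [← abs_mul]
    have := mul_le_mul_of_nonneg_left (neg_le_abs (β * χ)) hC
    linarith
  have h2 : (|β| + |χ|) ^ 2 ≤ C * (|β| * |χ|) := h.trans h1
  constructor
  · rcases eq_or_lt_of_le hχ with h0 | h0
    · rw [← h0]; positivity
    · have : |χ| * |χ| ≤ C * |β| * |χ| := by nlinarith [mul_nonneg hβ hχ, mul_nonneg hβ hβ]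
      exact le_of_mul_le_mul_right this h0
  · rcases eq_or_lt_of_le hβ with h0 | h0
    · rw [← h0]; positivity
    · have : |β| * |β| ≤ C * |χ| * |β| := by nlinarith [mul_nonneg hβ hχ, mul_nonneg hχ hχ]
      exact le_of_mul_le_mul_right this h0

theorem NST_mon {K1 C0 μ : ℝ} (hC0 : 1 ≤ C0) (hN : NST_N K1 C0 μ) {η P k β χ : ℝ → ℝ}
    (hL : ∀ T, LSy K1 η P k β χ 0 T) {s t : ℝ} (hs : 0 ≤ s) (hst : s ≤ t) : β s * χ s ≤ β t * χ t := by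
  have h5 := (hN η P k β χ 0 t (hs.trans hst) (hL t)).1 s ⟨hs, hst⟩ t ⟨hs.trans hst, le_rfl⟩ hst
  have h6 : 0 ≤ min 1 (t - s) * ((|β s| + |χ s|) ^ 2 + (|β t| + |χ t|) ^ 2) / C0 := by
    apply div_nonneg _ (by linarith)
    apply mul_nonneg _ (by positivity)
    exact le_min zero_le_one (sub_nonneg.2 hst)
  linarith

theorem NST_abs {K1 C0 μ : ℝ} (hC0 : 1 ≤ C0) (hN : NST_N K1 C0 μ) {η P k β χ : ℝ → ℝ}
    (hL : ∀ T, LSy K1 η P k β χ 0 T) (hq : ∀ t, 0 ≤ t → β t * χ t ≤ 0) (t : ℝ) (ht : 0 ≤ t) :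
    |β t| + |χ t| ≤ C0 * Real.exp (-(μ * t)) * (|β 0| + |χ 0|) ∧ |χ t| ≤ C0 * |β t| ∧ |β t| ≤ C0 * |χ t| ∧
      (|β t| + |χ t|) ^ 2 ≤ -(C0 * (β t * χ t)) := by
  have h1 := (hN η P k β χ 0 t ht (hL t)).2.2.1 (hq t ht) t ⟨ht, le_rfl⟩
  rw [sub_zero] at h1
  have h2 := (hN η P k β χ 0 (t + 1) (by linarith) (hL (t + 1))).1 t ⟨ht, by linarith⟩ (t + 1) ⟨by linarith, le_rfl⟩ (by linarith)
  have h3 : min 1 (t + 1 - t) = (1 : ℝ) := by rw [add_sub_cancel_left, min_self]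
  rw [h3, one_mul] at h2
  have h4 := hq (t + 1) (by linarith)
  have hC : 0 < C0 := by linarith
  have h5 : (|β t| + |χ t|) ^ 2 ≤ -(C0 * (β t * χ t)) := by
    have h6 : (|β t| + |χ t|) ^ 2 / C0 ≤ -(β t * χ t) := by
      have : (|β t| + |χ t|) ^ 2 / C0 ≤ ((|β t| + |χ t|) ^ 2 + (|β (t + 1)| + |χ (t + 1)|) ^ 2) / C0 := by
        apply div_le_div_of_nonneg_right _ hC.le
        nlinarith [sq_nonneg (|β (t + 1)| + |χ (t + 1)|)]
      linarith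
    rw [div_le_iff₀ hC] at h6
    linarith
  obtain ⟨h7, h8⟩ := NST_cone C0 (β t) (χ t) h5 hC.le
  exact ⟨h1, h7, h8, h5⟩

theorem NST_neg {K1 C0 μ : ℝ} (hC0 : 1 ≤ C0) (hμ : 0 < μ) (hN : NST_N K1 C0 μ) {η P k β χ : ℝ → ℝ}
    (hL : ∀ T, LSy K1 η P k β χ 0 T) (D : ℝ) (hd : ∀ t, 0 ≤ t → |β t| + |χ t| ≤ D * Real.exp (-(μ * t)))
    (t : ℝ) (ht : 0 ≤ t) : β t * χ t ≤ 0 := by
  have hlim : Tendsto (fun T : ℝ => (D * Real.exp (-(μ * T))) ^ 2) atTop (𝓝 0) := by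
    have h1 : Tendsto (fun T : ℝ => μ * T) atTop atTop := tendsto_id.const_mul_atTop hμ
    have h2 : Tendsto (fun T : ℝ => Real.exp (-(μ * T))) atTop (𝓝 0) :=
      Real.tendsto_exp_neg_atTop_nhds_zero.comp h1
    have h3 := (h2.const_mul D).pow 2
    rw [mul_zero, zero_pow two_ne_zero] at h3
    exact h3
  refine ge_of_tendsto hlim ?_
  filter_upwards [eventually_ge_atTop t] with T hT
  refine (NST_mon hC0 hN hL ht hT).trans ?_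
  have h1 := hd T (ht.trans hT)
  have hβ := abs_nonneg (β T)
  have hχ := abs_nonneg (χ T)
  have h2 : β T * χ T ≤ |β T| * |χ T| := by rw [← abs_mul]; exact le_abs_self _
  have h3 : (|β T| + |χ T|) ^ 2 ≤ (D * Real.exp (-(μ * T))) ^ 2 :=
    pow_le_pow_left₀ (add_nonneg hβ hχ) h1 2
  nlinarith [mul_nonneg hβ hχ, mul_nonneg hβ hβ, mul_nonneg hχ hχ]

theorem NST_proof (h1 : NPL_stmt) (h2 : NDC_stmt) (h3 : NWZ_stmt) : NST_stmt := by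
  intro K hK
  obtain ⟨C1, ε0, hC1, hε0, hP⟩ := h1 K hK
  have hK1 : 1 ≤ K ^ 2 := one_le_pow₀ hK
  obtain ⟨C0, μ, hC0, hμ, hN'⟩ := h2 (K ^ 2) hK1
  have hN : NST_N (K ^ 2) C0 μ := hN'
  obtain ⟨C2, hC2, hW⟩ := h3 (K ^ 2) μ hK1 hμ
  have hK0 : 0 < K ^ 2 := by linarith
  have hC00 : 0 < C0 := by linarith
  -- the constant
  set a0 : ℝ := 2 * C1 * C0 * (1 + C0) with ha0
  have ha00 : 0 < a0 := by positivity
  set CC : ℝ := C0 + 16 * K ^ 2 * a0 * C0 + C2 * a0 * (1 + C0) ^ 2 with hCC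
  have hCC0 : C0 ≤ CC := by
    have : 0 ≤ 16 * K ^ 2 * a0 * C0 + C2 * a0 * (1 + C0) ^ 2 := by positivity
    linarith
  refine ⟨CC, μ, ε0, by linarith, hμ, hε0, ?_⟩
  intro ε X g J W hε hεε0 hX hS
  -- the data of a stable pair
  have hLS : ∀ (J1 W1 J2 W2 : ℝ → ℝ), SMN ε X g J1 W1 → SMN ε X g J2 W2 → ∀ T : ℝ,
      LSy (K ^ 2) (fun t => C1 * (|J1 t| + |W1 t|)) (fun t => X.p (X.f t g) ^ 2) (fun t => X.κ (X.f t g)) J1 W1 0 T ∧
      LSy (K ^ 2) (fun t => C1 * (|J1 t| + |W1 t| + (|J2 t| + |W2 t|))) (fun t => X.p (X.f t g) ^ 2) (fun t => X.κ (X.f t g)) (fun t => J1 t - J2 t) (fun t => W1 t - W2 t) 0 T :=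
    fun J1 W1 J2 W2 a b T => hP ε T X g J1 W1 J2 W2 hεε0 hX (a.pr T) (b.pr T)
  have hone : ∀ (J1 W1 : ℝ → ℝ), SMN ε X g J1 W1 → ∀ t : ℝ, 0 ≤ t →
      |J1 t| + |W1 t| ≤ C0 * Real.exp (-(μ * t)) * (|J1 0| + |W1 0|) ∧ |W1 t| ≤ C0 * |J1 t| ∧ |J1 t| ≤ C0 * |W1 t| ∧
      (|J1 t| + |W1 t|) ^ 2 ≤ -(C0 * (J1 t * W1 t)) :=
    fun J1 W1 a t ht => NST_abs hC0 hN (fun T => (hLS J1 W1 J1 W1 a a T).1) a.neg t ht
  -- differences
  have hneg : ∀ (J1 W1 J2 W2 : ℝ → ℝ), SMN ε X g J1 W1 → SMN ε X g J2 W2 → ∀ t : ℝ, 0 ≤ t →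
      (J1 t - J2 t) * (W1 t - W2 t) ≤ 0 := by
    intro J1 W1 J2 W2 a b t ht
    refine NST_neg hC0 hμ hN (β := fun t => J1 t - J2 t) (χ := fun t => W1 t - W2 t) (fun T => (hLS J1 W1 J2 W2 a b T).2)
      (C0 * (|J1 0| + |W1 0|) + C0 * (|J2 0| + |W2 0|)) ?_ t ht
    intro t ht
    have e1 := (hone J1 W1 a t ht).1
    have e2 := (hone J2 W2 b t ht).1
    have e3 : |J1 t - J2 t| ≤ |J1 t| + |J2 t| := abs_sub _ _
    have e4 : |W1 t - W2 t| ≤ |W1 t| + |W2 t| := abs_sub _ _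
    change |J1 t - J2 t| + |W1 t - W2 t| ≤ _
    linarith
  have hdiff : ∀ (J1 W1 J2 W2 : ℝ → ℝ), SMN ε X g J1 W1 → SMN ε X g J2 W2 →
      |W1 0 - W2 0| ≤ C0 * |J1 0 - J2 0| := by
    intro J1 W1 J2 W2 a b
    exact (NST_abs hC0 hN (β := fun t => J1 t - J2 t) (χ := fun t => W1 t - W2 t) (fun T => (hLS J1 W1 J2 W2 a b T).2)
      (hneg J1 W1 J2 W2 a b) 0 le_rfl).2.1
  refine ⟨?_, ?_⟩
  · intro t ht
    obtain ⟨x1, x2, x3, x4⟩ := hone J W hS t ht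
    refine ⟨?_, ?_, ?_, ?_⟩
    · refine x1.trans ?_
      apply mul_le_mul_of_nonneg_right _ (add_nonneg (abs_nonneg _) (abs_nonneg _))
      exact mul_le_mul_of_nonneg_right hCC0 (Real.exp_pos _).le
    · exact x2.trans (mul_le_mul_of_nonneg_right hCC0 (abs_nonneg _))
    · exact x3.trans (mul_le_mul_of_nonneg_right hCC0 (abs_nonneg _))
    · refine x4.trans ?_
      have := hS.neg t ht
      nlinarith
  intro J' W' hS'
  refine ⟨(hdiff J W J' W' hS hS').trans (mul_le_mul_of_nonneg_right hCC0 (abs_nonneg _)), ?_⟩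
  intro r J3 W3 J4 W4 hS3 hS4 r1 r2 r3 r4
  have hr : 0 ≤ r := (abs_nonneg _).trans r1
  have d12 := hdiff J W J' W' hS hS'
  have d34 := hdiff J3 W3 J4 W4 hS3 hS4
  have hab : 0 ≤ |J 0 - J' 0| * |J3 0 - J4 0| := mul_nonneg (abs_nonneg _) (abs_nonneg _)
  by_cases hA : a0 * r ≤ 1 / (8 * K ^ 2)
  · -- small r
    have hdec : ∀ (J1 W1 : ℝ → ℝ), SMN ε X g J1 W1 → |J1 0| ≤ r → ∀ t : ℝ, 0 ≤ t →
        |J1 t| + |W1 t| ≤ C0 * (1 + C0) * r * Real.exp (-(μ * t)) := by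
      intro J1 W1 a hJ t ht
      have e1 := (hone J1 W1 a t ht).1
      have e2 := (hone J1 W1 a 0 le_rfl).2.1
      have e3 : |J1 0| + |W1 0| ≤ (1 + C0) * r := by nlinarith
      have e4 := Real.exp_pos (-(μ * t))
      refine e1.trans ?_
      have := mul_le_mul_of_nonneg_left e3 (mul_nonneg hC00.le e4.le)
      linarith
    have hpair : ∀ (J1 W1 J2 W2 : ℝ → ℝ), SMN ε X g J1 W1 → SMN ε X g J2 W2 → |J1 0| ≤ r → |J2 0| ≤ r → ∀ T : ℝ,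
        LSy (K ^ 2) (fun t => a0 * r * Real.exp (-(μ * t))) (fun t => X.p (X.f t g) ^ 2) (fun t => X.κ (X.f t g)) (fun t => J1 t - J2 t) (fun t => W1 t - W2 t) 0 T := by
      intro J1 W1 J2 W2 a b ha hb T
      refine NST_mono (hLS J1 W1 J2 W2 a b T).2 ?_ ?_
      · intro t ht
        have e1 := hdec J1 W1 a ha t ht.1
        have e2 := hdec J2 W2 b hb t ht.1
        have e3 := mul_le_mul_of_nonneg_left (add_le_add e1 e2) (by linarith : (0:ℝ) ≤ C1)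
        refine e3.trans (le_of_eq ?_)
        rw [ha0]; ring
      · intro t ht
        refine le_trans ?_ hA
        have e1 : Real.exp (-(μ * t)) ≤ 1 := Real.exp_le_one_iff.2 (by nlinarith [ht.1])
        have := mul_le_mul_of_nonneg_left e1 (mul_nonneg ha00.le hr)
        linarith
    have hw := hW (a0 * r) (fun t => X.p (X.f t g) ^ 2) (fun t => X.κ (X.f t g)) (fun t => J t - J' t) (fun t => W t - W' t)
      (fun t => J3 t - J4 t) (fun t => W3 t - W4 t) (mul_nonneg ha00.le hr)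
      (fun T => ⟨hpair J W J' W' hS hS' r1 r2 T, hpair J3 W3 J4 W4 hS3 hS4 r3 r4 T⟩)
      (fun t ht => ⟨hneg J W J' W' hS hS' t ht, hneg J3 W3 J4 W4 hS3 hS4 t ht⟩)
    have e1 : (W 0 - W' 0) * (J3 0 - J4 0) - (W3 0 - W4 0) * (J 0 - J' 0) =
        -((J 0 - J' 0) * (W3 0 - W4 0) - (W 0 - W' 0) * (J3 0 - J4 0)) := by ring
    rw [e1, abs_neg]
    refine hw.trans ?_
    have e2 : |J 0 - J' 0| + |W 0 - W' 0| ≤ (1 + C0) * |J 0 - J' 0| := by linarith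
    have e3 : |J3 0 - J4 0| + |W3 0 - W4 0| ≤ (1 + C0) * |J3 0 - J4 0| := by linarith
    have e4 : (|J 0 - J' 0| + |W 0 - W' 0|) * (|J3 0 - J4 0| + |W3 0 - W4 0|) ≤
        ((1 + C0) * |J 0 - J' 0|) * ((1 + C0) * |J3 0 - J4 0|) :=
      mul_le_mul e2 e3 (add_nonneg (abs_nonneg _) (abs_nonneg _)) (by positivity)
    have e5 : C2 * (a0 * r) * ((|J 0 - J' 0| + |W 0 - W' 0|) * (|J3 0 - J4 0| + |W3 0 - W4 0|)) ≤
        C2 * (a0 * r) * (((1 + C0) * |J 0 - J' 0|) * ((1 + C0) * |J3 0 - J4 0|)) :=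
      mul_le_mul_of_nonneg_left e4 (by positivity)
    refine e5.trans ?_
    have e6 : C2 * (a0 * r) * (((1 + C0) * |J 0 - J' 0|) * ((1 + C0) * |J3 0 - J4 0|)) =
        C2 * a0 * (1 + C0) ^ 2 * (r * (|J 0 - J' 0| * |J3 0 - J4 0|)) := by ring
    rw [e6]
    have e7 : C2 * a0 * (1 + C0) ^ 2 ≤ CC := by
      have : 0 ≤ C0 + 16 * K ^ 2 * a0 * C0 := by positivity
      linarith
    have := mul_le_mul_of_nonneg_right e7 (mul_nonneg hr hab)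
    linarith
  · -- large r
    push Not at hA
    have e1 : |(W 0 - W' 0) * (J3 0 - J4 0) - (W3 0 - W4 0) * (J 0 - J' 0)| ≤
        |(W 0 - W' 0) * (J3 0 - J4 0)| + |(W3 0 - W4 0) * (J 0 - J' 0)| := abs_sub _ _
    rw [abs_mul, abs_mul] at e1
    have e2 : |W 0 - W' 0| * |J3 0 - J4 0| ≤ C0 * |J 0 - J' 0| * |J3 0 - J4 0| :=
      mul_le_mul_of_nonneg_right d12 (abs_nonneg _)
    have e3 : |W3 0 - W4 0| * |J 0 - J' 0| ≤ C0 * |J3 0 - J4 0| * |J 0 - J' 0| :=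
      mul_le_mul_of_nonneg_right d34 (abs_nonneg _)
    have e4 : |W 0 - W' 0| * |J3 0 - J4 0| + |W3 0 - W4 0| * |J 0 - J' 0| ≤ 2 * C0 * (|J 0 - J' 0| * |J3 0 - J4 0|) := by
      linarith
    have e5 : 1 ≤ 8 * K ^ 2 * (a0 * r) := by
      rw [div_lt_iff₀ (by positivity)] at hA
      linarith
    have e6 : 2 * C0 ≤ CC * r := by
      have f1 : 16 * K ^ 2 * a0 * C0 * r ≤ CC * r := by
        apply mul_le_mul_of_nonneg_right _ hr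
        have : 0 ≤ C0 + C2 * a0 * (1 + C0) ^ 2 := by positivity
        linarith
      have f2 : 2 * C0 * 1 ≤ 2 * C0 * (8 * K ^ 2 * (a0 * r)) := mul_le_mul_of_nonneg_left e5 (by positivity)
      have f3 : 2 * C0 * (8 * K ^ 2 * (a0 * r)) = 16 * K ^ 2 * a0 * C0 * r := by ring
      linarith
    have e7 := mul_le_mul_of_nonneg_right e6 hab
    linarith

end Pool.Agent.VNE
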