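import Pool.Agent.helper62.VN.SpecE

set_option autoImplicit false

namespace Pool.Agent.VNE

open Pool.Agent.RS Pool.Agent.VQE
open scoped MatrixGroups ContDiff Topology UpperHalfPlane
open UpperHalfPlane MeasureTheory Filter Set

theorem NWR_mono {K : ℝ} {η P k β χ : ℝ → ℝ} {a b a' b' : ℝ} (h : LSy K η P k β χ a b) (ha : a ≤ a')
    (hb : b' ≤ b) : LSy K η P k β χ a' b' :=
  ⟨fun t ht => h.bd t ⟨ha.trans ht.1, ht.2.trans hb⟩, fun t ht => h.d t ⟨ha.trans ht.1, ht.2.trans hb⟩⟩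

/-- the Wronskian is bounded below -/
theorem NWR_low (c β χ β2 χ2 : ℝ) (hc : 0 < c) (h : c * (|β| + |χ|) ^ 2 ≤ -(β * χ)) (hq : 0 ≤ β2 * χ2) :
    c * ((|β| + |χ|) * (|β2| + |χ2|)) ≤ |β * χ2 - χ * β2| := by
  have hβ := abs_nonneg β
  have hχ := abs_nonneg χ
  have hβ2 := abs_nonneg β2
  have hχ2 := abs_nonneg χ2
  rcases eq_or_lt_of_le (add_nonneg hβ hχ) with h0 | h0
  · rw [← h0, zero_mul, mul_zero]
    exact abs_nonneg _
  have h1 : -(β * χ) ≤ |β| * |χ| := by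
    rw [← abs_mul]
    exact neg_le_abs _
  have h2 : c * (|β| + |χ|) ≤ |β| := by
    have : c * (|β| + |χ|) * (|β| + |χ|) ≤ |β| * (|β| + |χ|) := by nlinarith
    exact le_of_mul_le_mul_right this h0
  have h3 : c * (|β| + |χ|) ≤ |χ| := by
    have : c * (|β| + |χ|) * (|β| + |χ|) ≤ |χ| * (|β| + |χ|) := by nlinarith
    exact le_of_mul_le_mul_right this h0
  have h4 : |β * χ2 - χ * β2| = |β * χ2| + |χ * β2| := by
    have hp : 0 ≤ (β * χ2) * (-(χ * β2)) := by
      have e : (β * χ2) * (-(χ * β2)) = (-(β * χ)) * (β2 * χ2) := by ring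
      rw [e]
      apply mul_nonneg _ hq
      exact le_trans (by positivity) h
    have h5 : |β * χ2 + -(χ * β2)| = |β * χ2| + |-(χ * β2)| := by
      rcases mul_nonneg_iff.1 hp with ⟨x, y⟩ | ⟨x, y⟩
      · rw [abs_of_nonneg x, abs_of_nonneg y, abs_of_nonneg (add_nonneg x y)]
      · rw [abs_of_nonpos x, abs_of_nonpos y, abs_of_nonpos (add_nonpos x y)]
        ring
    rw [abs_neg] at h5
    rw [← h5, sub_eq_add_neg]
  rw [h4, abs_mul, abs_mul]
  have h6 : c * (|β| + |χ|) * |χ2| ≤ |β| * |χ2| := mul_le_mul_of_nonneg_right h2 hχ2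
  have h7 : c * (|β| + |χ|) * |β2| ≤ |χ| * |β2| := mul_le_mul_of_nonneg_right h3 hβ2
  linarith [h6, h7, mul_add (c * (|β| + |χ|)) |β2| |χ2|, mul_assoc c (|β| + |χ|) (|β2| + |χ2|)]

theorem NWR_up (β χ β2 χ2 : ℝ) : |β * χ2 - χ * β2| ≤ (|β| + |χ|) * (|β2| + |χ2|) := by
  have h1 : |β * χ2 - χ * β2| ≤ |β * χ2| + |χ * β2| := by
    have := abs_add_le (β * χ2) (-(χ * β2))
    rwa [abs_neg, ← sub_eq_add_neg] at this
  rw [abs_mul, abs_mul] at h1
  have hβ := abs_nonneg β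
  have hχ := abs_nonneg χ
  have hβ2 := abs_nonneg β2
  have hχ2 := abs_nonneg χ2
  nlinarith [mul_nonneg hβ hβ2, mul_nonneg hχ hχ2]

/-- the derivative of the Wronskian -/
theorem NWR_der (K c : ℝ) (η P k β χ β2 χ2 : ℝ → ℝ) (s t : ℝ) (hc : 0 < c)
    (h1 : LSy K η P k β χ s t) (h2 : LSy K η P k β2 χ2 s t)
    (hv : ∀ r ∈ Icc s t, c * (|β r| + |χ r|) ^ 2 ≤ -(β r * χ r)) (hq : ∀ r ∈ Icc s t, 0 ≤ β2 r * χ2 r)
    (r : ℝ) (hr : r ∈ Icc s t) : ∃ w' : ℝ, HasDerivAt (fun x => β x * χ2 x - χ x * β2 x) w' r ∧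
      |w'| ≤ 2 / c * η r * |β r * χ2 r - χ r * β2 r| := by
  obtain ⟨β', χ', d1, d2, e1, e2⟩ := h1.d r hr
  obtain ⟨β2', χ2', d3, d4, e3, e4⟩ := h2.d r hr
  have hη : 0 ≤ η r := (h1.bd r hr).2.2.2.2.1
  refine ⟨_, (d1.mul d4).sub (d2.mul d3), ?_⟩
  have hlow := NWR_low c (β r) (χ r) (β2 r) (χ2 r) hc (hv r hr) (hq r hr)
  have hid : β' * χ2 r + β r * χ2' - (χ' * β2 r + χ r * β2') =
      (β' - P r * χ r) * χ2 r + β r * (χ2' - k r * β2 r) - (χ' - k r * β r) * β2 r - χ r * (β2' - P r * χ2 r) := by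
    ring
  rw [hid]
  have a1 : |(β' - P r * χ r) * χ2 r| ≤ η r * (|β r| + |χ r|) * |χ2 r| := by
    rw [abs_mul]; exact mul_le_mul_of_nonneg_right e1 (abs_nonneg _)
  have a2 : |β r * (χ2' - k r * β2 r)| ≤ |β r| * (η r * (|β2 r| + |χ2 r|)) := by
    rw [abs_mul]; exact mul_le_mul_of_nonneg_left e4 (abs_nonneg _)
  have a3 : |(χ' - k r * β r) * β2 r| ≤ η r * (|β r| + |χ r|) * |β2 r| := by
    rw [abs_mul]; exact mul_le_mul_of_nonneg_right e2 (abs_nonneg _)
  have a4 : |χ r * (β2' - P r * χ2 r)| ≤ |χ r| * (η r * (|β2 r| + |χ2 r|)) := by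
    rw [abs_mul]; exact mul_le_mul_of_nonneg_left e3 (abs_nonneg _)
  have b1 : |(β' - P r * χ r) * χ2 r + β r * (χ2' - k r * β2 r) - (χ' - k r * β r) * β2 r - χ r * (β2' - P r * χ2 r)| ≤
      2 * η r * ((|β r| + |χ r|) * (|β2 r| + |χ2 r|)) := by
    rw [abs_le] at *
    obtain ⟨a1l, a1r⟩ := a1
    obtain ⟨a2l, a2r⟩ := a2
    obtain ⟨a3l, a3r⟩ := a3
    obtain ⟨a4l, a4r⟩ := a4
    have E : 2 * η r * ((|β r| + |χ r|) * (|β2 r| + |χ2 r|)) = η r * (|β r| + |χ r|) * |χ2 r| + |β r| * (η r * (|β2 r| + |χ2 r|)) +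
        η r * (|β r| + |χ r|) * |β2 r| + |χ r| * (η r * (|β2 r| + |χ2 r|)) := by ring
    rw [E]
    constructor <;> linarith
  refine b1.trans ?_
  have hcc : c * (2 / c * η r * |β r * χ2 r - χ r * β2 r|) = 2 * η r * |β r * χ2 r - χ r * β2 r| := by
    field_simp
  have h5 : c * (2 * η r * ((|β r| + |χ r|) * (|β2 r| + |χ2 r|))) ≤ c * (2 / c * η r * |β r * χ2 r - χ r * β2 r|) := by
    rw [hcc]
    have := mul_le_mul_of_nonneg_left hlow (by positivity : (0:ℝ) ≤ 2 * η r)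
    linarith [this, mul_left_comm c (2 * η r) ((|β r| + |χ r|) * (|β2 r| + |χ2 r|))]
  exact le_of_mul_le_mul_left h5 hc

theorem NWR_w (K c A B μ : ℝ) (η P k β χ β2 χ2 : ℝ → ℝ) (s t : ℝ) (hst : s ≤ t) (hs : 0 ≤ s) (hc : 0 < c) (hμ : 0 < μ)
    (hA : 0 ≤ A) (hB : 0 ≤ B)
    (h1 : LSy K η P k β χ s t) (h2 : LSy K η P k β2 χ2 s t)
    (hv : ∀ r ∈ Icc s t, c * (|β r| + |χ r|) ^ 2 ≤ -(β r * χ r)) (hq : ∀ r ∈ Icc s t, 0 ≤ β2 r * χ2 r)
    (hη : ∀ r ∈ Icc s t, η r ≤ A * Real.exp (-(μ * r)) + B * Real.exp (-(μ * (t - r)))) :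
    (β t * χ2 t - χ t * β2 t) ^ 2 ≤ (β s * χ2 s - χ s * β2 s) ^ 2 * Real.exp (4 / c * ((A + B) / μ)) := by
  set w : ℝ → ℝ := fun x => β x * χ2 x - χ x * β2 x with hw
  set H : ℝ → ℝ := fun r => (-(A * Real.exp (-(μ * r))) + B * Real.exp (-(μ * (t - r)))) / μ with hH
  have hHd : ∀ r, HasDerivAt H (A * Real.exp (-(μ * r)) + B * Real.exp (-(μ * (t - r)))) r := by
    intro r
    have d1 : HasDerivAt (fun r : ℝ => -(μ * r)) (-μ) r := by
      exact (((hasDerivAt_id r).const_mul μ).neg).congr_deriv (by simp)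
    have d2 : HasDerivAt (fun r : ℝ => -(μ * (t - r))) μ r := by
      exact ((((hasDerivAt_id r).const_sub t).const_mul μ).neg).congr_deriv (by simp)
    have d3 := ((d1.exp.const_mul A).neg.add (d2.exp.const_mul B)).div_const μ
    refine d3.congr_deriv ?_
    field_simp
  set G : ℝ → ℝ := fun r => w r ^ 2 * Real.exp (-(4 / c * H r)) with hG
  have hGd : ∀ r ∈ Icc s t, ∃ G' : ℝ, HasDerivAt G G' r ∧ G' ≤ 0 := by
    intro r hr
    obtain ⟨w', dw, hw'⟩ := NWR_der K c η P k β χ β2 χ2 s t hc h1 h2 hv hq r hr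
    have dG := (dw.pow 2).mul (((hHd r).const_mul (4 / c)).neg.exp)
    refine ⟨_, dG, ?_⟩
    have hηr := hη r hr
    set Hr := A * Real.exp (-(μ * r)) + B * Real.exp (-(μ * (t - r))) with hHr
    have hexp := Real.exp_pos (-(4 / c * H r))
    have h5 : |w r * w'| ≤ 2 / c * η r * (w r) ^ 2 := by
      rw [abs_mul]
      have := mul_le_mul_of_nonneg_left hw' (abs_nonneg (w r))
      refine this.trans (le_of_eq ?_)
      have e : |β r * χ2 r - χ r * β2 r| = |w r| := rfl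
      rw [e]
      have e2 : |w r| * |w r| = w r ^ 2 := by rw [← sq, sq_abs]
      linear_combination (2 / c * η r) * e2
    have h6 : w r * w' ≤ 2 / c * Hr * (w r) ^ 2 := by
      refine (le_abs_self _).trans (h5.trans ?_)
      apply mul_le_mul_of_nonneg_right _ (sq_nonneg _)
      exact mul_le_mul_of_nonneg_left hηr (by positivity)
    have h7 : (2 * w r * w' - 4 / c * Hr * w r ^ 2) * Real.exp (-(4 / c * H r)) ≤ 0 := by
      apply mul_nonpos_of_nonpos_of_nonneg _ hexp.le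
      have e4 : 4 / c * Hr * w r ^ 2 = 2 * (2 / c * Hr * w r ^ 2) := by ring
      rw [e4]
      linarith
    refine le_trans (le_of_eq ?_) h7
    change ((2 : ℕ) : ℝ) * w r ^ (2 - 1) * w' * Real.exp (-(4 / c * H r)) +
      w r ^ 2 * (Real.exp (-(4 / c * H r)) * -(4 / c * Hr)) = _
    push_cast
    ring
  have hanti : AntitoneOn G (Icc s t) := by
    apply antitoneOn_of_deriv_nonpos (convex_Icc s t)
    · intro r hr
      obtain ⟨G', d, _⟩ := hGd r hr
      exact d.continuousAt.continuousWithinAt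
    · intro r hr
      obtain ⟨G', d, _⟩ := hGd r (interior_subset hr)
      exact d.differentiableAt.differentiableWithinAt
    · intro r hr
      obtain ⟨G', d, hd⟩ := hGd r (interior_subset hr)
      rw [d.deriv]
      exact hd
  have hGle := hanti ⟨le_refl s, hst⟩ ⟨hst, le_refl t⟩ hst
  have hHt : H t - H s ≤ (A + B) / μ := by
    rw [← sub_div]
    apply div_le_div_of_nonneg_right _ hμ.le
    have e1 : Real.exp (-(μ * s)) ≤ 1 := Real.exp_le_one_iff.2 (by nlinarith)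
    have e2 : Real.exp (-(μ * (t - t))) = 1 := by rw [sub_self, mul_zero, neg_zero, Real.exp_zero]
    have e3 := Real.exp_pos (-(μ * t))
    have e4 := Real.exp_pos (-(μ * (t - s)))
    rw [e2]
    have f1 : A * Real.exp (-(μ * s)) ≤ A * 1 := mul_le_mul_of_nonneg_left e1 hA
    have f2 : 0 ≤ A * Real.exp (-(μ * t)) := mul_nonneg hA e3.le
    have f3 : 0 ≤ B * Real.exp (-(μ * (t - s))) := mul_nonneg hB e4.le
    linarith
  have h8 : w t ^ 2 = G t * Real.exp (4 / c * H t) := by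
    simp only [hG]
    rw [mul_assoc, ← Real.exp_add, neg_add_cancel, Real.exp_zero, mul_one]
  have h9 : G t * Real.exp (4 / c * H t) ≤ G s * Real.exp (4 / c * H t) :=
    mul_le_mul_of_nonneg_right hGle (Real.exp_pos _).le
  have h10 : G s * Real.exp (4 / c * H t) = w s ^ 2 * Real.exp (4 / c * (H t - H s)) := by
    simp only [hG]
    rw [mul_assoc, ← Real.exp_add]
    congr 2
    ring
  change w t ^ 2 ≤ w s ^ 2 * _
  rw [h8]
  refine h9.trans ?_
  rw [h10]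
  apply mul_le_mul_of_nonneg_left _ (sq_nonneg _)
  apply Real.exp_le_exp.2
  exact mul_le_mul_of_nonneg_left hHt (by positivity)

theorem NWR_proof (h1 : NDC_stmt) : NWR_stmt := by
  intro K K' c hK hK' hc
  obtain ⟨C0, μ, hC0, hμ, hN⟩ := h1 K hK
  set E : ℝ := Real.exp (C0 / (2 * c * μ)) with hE
  refine ⟨C0 ^ 2 * E / c + C0 ^ 2, ?_, ?_⟩
  · have : 0 ≤ C0 ^ 2 * E / c := by positivity
    nlinarith
  intro P k β χ β2 χ2 T hT l1 l2 hv t ht
  set η : ℝ → ℝ := fun t => K' * (|β t| + |χ t| + (|β2 t| + |χ2 t|)) with hη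
  set nv : ℝ → ℝ := fun t => |β t| + |χ t| with hnv
  set nu : ℝ → ℝ := fun t => |β2 t| + |χ2 t| with hnu
  have hnv0 : ∀ t, 0 ≤ nv t := fun t => add_nonneg (abs_nonneg _) (abs_nonneg _)
  have hnu0 : ∀ t, 0 ≤ nu t := fun t => add_nonneg (abs_nonneg _) (abs_nonneg _)
  have hK0 : 0 < K := by linarith
  have hK'0 : 0 < K' := by linarith
  have hC00 : 0 < C0 := by linarith
  change nv t * nu t ≤ (C0 ^ 2 * E / c + C0 ^ 2) * (nv 0 * nu 0)
  have hpos : 0 ≤ nv 0 * nu 0 := mul_nonneg (hnv0 0) (hnu0 0)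
  have hEc : 0 ≤ C0 ^ 2 * E / c := by positivity
  -- v decays
  have hvd : ∀ r ∈ Icc (0 : ℝ) t, nv r ≤ C0 * Real.exp (-(μ * r)) * nv 0 := by
    intro r hr
    have hq : β t * χ t ≤ 0 := by
      have := hv t ht
      nlinarith [mul_nonneg hc.le (sq_nonneg (|β t| + |χ t|))]
    have := (hN η P k β χ 0 t ht.1 (NWR_mono l1 le_rfl ht.2)).2.2.1 hq r hr
    rwa [sub_zero] at this
  have hvt : ∀ r ∈ Icc (0 : ℝ) t, nv r ≤ C0 * nv 0 := by
    intro r hr
    refine (hvd r hr).trans ?_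
    have e1 : Real.exp (-(μ * r)) ≤ 1 := Real.exp_le_one_iff.2 (by nlinarith [hr.1])
    have : C0 * Real.exp (-(μ * r)) ≤ C0 * 1 := mul_le_mul_of_nonneg_left e1 hC00.le
    rw [mul_one] at this
    exact mul_le_mul_of_nonneg_right this (hnv0 0)
  by_cases hqt : β2 t * χ2 t ≤ 0
  · have hu : nu t ≤ C0 * nu 0 := by
      have h5 := (hN η P k β2 χ2 0 t ht.1 (NWR_mono l2 le_rfl ht.2)).2.2.1 hqt t ⟨ht.1, le_rfl⟩
      have e1 : Real.exp (-(μ * (t - 0))) ≤ 1 := Real.exp_le_one_iff.2 (by nlinarith [ht.1])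
      refine h5.trans ?_
      have : C0 * Real.exp (-(μ * (t - 0))) ≤ C0 * 1 := mul_le_mul_of_nonneg_left e1 hC00.le
      rw [mul_one] at this
      exact mul_le_mul_of_nonneg_right this (hnu0 0)
    have h6 : nv t * nu t ≤ (C0 * nv 0) * (C0 * nu 0) :=
      mul_le_mul (hvt t ⟨ht.1, le_rfl⟩) hu (hnu0 t) (mul_nonneg hC00.le (hnv0 0))
    nlinarith [mul_nonneg hEc hpos]
  · push Not at hqt
    -- the point s
    obtain ⟨s, hs, hsq, hsu⟩ : ∃ s ∈ Icc (0 : ℝ) t, 0 ≤ β2 s * χ2 s ∧ nu s ≤ C0 * nu 0 := by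
      by_cases h0 : 0 ≤ β2 0 * χ2 0
      · refine ⟨0, ⟨le_rfl, ht.1⟩, h0, ?_⟩
        nlinarith [hnu0 0]
      · push Not at h0
        have hcont : ContinuousOn (fun r => β2 r * χ2 r) (Icc 0 t) := by
          intro r hr
          obtain ⟨x, y, d1, d2, _⟩ := l2.d r ⟨hr.1, hr.2.trans ht.2⟩
          exact (d1.continuousAt.mul d2.continuousAt).continuousWithinAt
        obtain ⟨s, hs, hs0⟩ := intermediate_value_Icc ht.1 hcont ⟨h0.le, hqt.le⟩
        have hs0' : β2 s * χ2 s = 0 := hs0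
        refine ⟨s, hs, hs0'.ge, ?_⟩
        have h5 := (hN η P k β2 χ2 0 s hs.1 (NWR_mono l2 le_rfl (hs.2.trans ht.2))).2.2.1 hs0'.le s ⟨hs.1, le_rfl⟩
        have e1 : Real.exp (-(μ * (s - 0))) ≤ 1 := Real.exp_le_one_iff.2 (by nlinarith [hs.1])
        refine h5.trans ?_
        have : C0 * Real.exp (-(μ * (s - 0))) ≤ C0 * 1 := mul_le_mul_of_nonneg_left e1 hC00.le
        rw [mul_one] at this
        exact mul_le_mul_of_nonneg_right this (hnu0 0)
    have l1' := NWR_mono l1 hs.1 ht.2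
    have l2' := NWR_mono l2 hs.1 ht.2
    have hq : ∀ r ∈ Icc s t, 0 ≤ β2 r * χ2 r := by
      intro r hr
      have h5 := (hN η P k β2 χ2 s t hs.2 l2').1 s ⟨le_rfl, hs.2⟩ r hr hr.1
      have h6 : 0 ≤ min 1 (r - s) * ((|β2 s| + |χ2 s|) ^ 2 + (|β2 r| + |χ2 r|) ^ 2) / C0 := by
        apply div_nonneg _ hC00.le
        apply mul_nonneg _ (by positivity)
        exact le_min zero_le_one (sub_nonneg.2 hr.1)
      linarith
    have hud : ∀ r ∈ Icc s t, nu r ≤ C0 * Real.exp (-(μ * (t - r))) * nu t := by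
      intro r hr
      exact (hN η P k β2 χ2 s t hs.2 l2').2.2.2 hsq r hr
    have hηr : ∀ r ∈ Icc s t, η r ≤ (K' * C0 * nv 0) * Real.exp (-(μ * r)) + (K' * C0 * nu t) * Real.exp (-(μ * (t - r))) := by
      intro r hr
      have a1 := hvd r ⟨hs.1.trans hr.1, hr.2⟩
      have a2 := hud r hr
      have e : η r = K' * nv r + K' * nu r := by
        simp only [hη, hnv, hnu]; ring
      rw [e]
      have b1 := mul_le_mul_of_nonneg_left a1 hK'0.le
      have b2 := mul_le_mul_of_nonneg_left a2 hK'0.le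
      linarith
    have hw := NWR_w K c (K' * C0 * nv 0) (K' * C0 * nu t) μ η P k β χ β2 χ2 s t hs.2 hs.1 hc hμ
      (by have := hnv0 0; positivity) (by have := hnu0 t; positivity) l1' l2'
      (fun r hr => hv r ⟨hs.1.trans hr.1, hr.2.trans ht.2⟩) hq hηr
    -- sizes
    have hv0 : K' * nv 0 ≤ 1 / (8 * K) := by
      have h5 := (l1.bd 0 ⟨le_rfl, hT⟩).2.2.2.2.2
      have h6 : K' * nv 0 ≤ η 0 := by
        have e : η 0 = K' * nv 0 + K' * nu 0 := by simp only [hη, hnv, hnu]; ring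
        rw [e]
        have := mul_nonneg hK'0.le (hnu0 0)
        linarith
      exact h6.trans h5
    have hut : K' * nu t ≤ 1 / (8 * K) := by
      have h5 := (l1.bd t ht).2.2.2.2.2
      have h6 : K' * nu t ≤ η t := by
        have e : η t = K' * nv t + K' * nu t := by simp only [hη, hnv, hnu]; ring
        rw [e]
        have := mul_nonneg hK'0.le (hnv0 t)
        linarith
      exact h6.trans h5
    have h8K : 1 / (8 * K) ≤ 1 / 8 := by
      apply one_div_le_one_div_of_le (by norm_num)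
      linarith
    have hexp : Real.exp (4 / c * ((K' * C0 * nv 0 + K' * C0 * nu t) / μ)) ≤ E ^ 2 := by
      rw [hE, ← Real.exp_nat_mul]
      apply Real.exp_le_exp.2
      push_cast
      have a1 : K' * C0 * nv 0 + K' * C0 * nu t ≤ C0 / 4 := by
        have : K' * C0 * nv 0 + K' * C0 * nu t = C0 * (K' * nv 0 + K' * nu t) := by ring
        rw [this]
        have : K' * nv 0 + K' * nu t ≤ 1 / 4 := by linarith
        have := mul_le_mul_of_nonneg_left this hC00.le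
        linarith
      have a2 : 4 / c * ((K' * C0 * nv 0 + K' * C0 * nu t) / μ) ≤ 4 / c * ((C0 / 4) / μ) := by
        apply mul_le_mul_of_nonneg_left _ (by positivity)
        exact div_le_div_of_nonneg_right a1 hμ.le
      refine a2.trans (le_of_eq ?_)
      field_simp
    have hwt : |β t * χ2 t - χ t * β2 t| ≤ |β s * χ2 s - χ s * β2 s| * E := by
      apply abs_le_of_sq_le_sq' _ _ |> abs_le.2
      · have : (|β s * χ2 s - χ s * β2 s| * E) ^ 2 = (β s * χ2 s - χ s * β2 s) ^ 2 * E ^ 2 := by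
          rw [mul_pow, sq_abs]
        rw [this]
        refine hw.trans ?_
        exact mul_le_mul_of_nonneg_left hexp (sq_nonneg _)
      · positivity
    have hlow := NWR_low c (β t) (χ t) (β2 t) (χ2 t) hc (hv t ht) hqt.le
    have hup := NWR_up (β s) (χ s) (β2 s) (χ2 s)
    have hfin : c * (nv t * nu t) ≤ (C0 * nv 0) * (C0 * nu 0) * E := by
      have a1 : nv s * nu s ≤ (C0 * nv 0) * (C0 * nu 0) :=
        mul_le_mul (hvt s hs) hsu (hnu0 s) (mul_nonneg hC00.le (hnv0 0))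
      have a2 : |β s * χ2 s - χ s * β2 s| * E ≤ (nv s * nu s) * E :=
        mul_le_mul_of_nonneg_right hup (Real.exp_pos _).le
      have a3 : (nv s * nu s) * E ≤ (C0 * nv 0) * (C0 * nu 0) * E :=
        mul_le_mul_of_nonneg_right a1 (Real.exp_pos _).le
      exact hlow.trans (hwt.trans (a2.trans a3))
    have h9 : nv t * nu t ≤ C0 ^ 2 * E / c * (nv 0 * nu 0) := by
      have : c * (C0 ^ 2 * E / c * (nv 0 * nu 0)) = (C0 * nv 0) * (C0 * nu 0) * E := by
        field_simp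
      rw [← this] at hfin
      exact le_of_mul_le_mul_left hfin hc
    have : 0 ≤ C0 ^ 2 * (nv 0 * nu 0) := by positivity
    linarith

end Pool.Agent.VNE
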